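import Pool.Agent.Helper64.HG.Stmts

set_option autoImplicit false

namespace Pool.Agent.Helper64.HG

variable {V : Type}

theorem mk1_four : ∀ i j : Fin 4, i ≠ j → ∃ k l : Fin 4, i ≠ k ∧ i ≠ l ∧ j ≠ k ∧ j ≠ l ∧ k ≠ l ∧
    ∀ t : Fin 4, t = i ∨ t = j ∨ t = k ∨ t = l := by decide

theorem mk1_ip {G : SimpleGraph V} {S : Set V} {L : List S} (h : IP G (L.map Subtype.val)) :
    IP (G.induce S) L := by
  obtain ⟨h1, h2⟩ := h
  refine ⟨List.Nodup.of_map _ h1, ?_⟩
  intro i j hi hj hij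
  have h3 := h2 i j (by simpa using hi) (by simpa using hj) hij
  simpa using h3

theorem mk1_link {G : SimpleGraph V} {S : Set V} {L : List S} {u w : S}
    (h : Link G u.1 (L.map Subtype.val) w.1) : Link (G.induce S) u L w := by
  obtain ⟨h1, h2, h3, h4, h5, h6⟩ := h
  refine ⟨?_, mk1_ip h2, ?_, ?_, ?_, ?_⟩
  · intro h
    apply h1
    rw [h, List.map_nil]
  · intro h
    exact h3 (List.mem_map_of_mem h)
  · intro h
    exact h4 (List.mem_map_of_mem h)
  · intro x hx
    have h7 := h5 x.1 (List.mem_map_of_mem hx)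
    rw [List.head?_map] at h7
    constructor
    · intro h8
      obtain ⟨a, ha, hax⟩ := Option.map_eq_some_iff.1 (h7.1 h8)
      rw [ha]
      congr 1
      exact Subtype.ext hax
    · intro h8
      apply h7.2
      rw [h8]
      rfl
  · intro x hx
    have h7 := h6 x.1 (List.mem_map_of_mem hx)
    rw [List.getLast?_map] at h7
    constructor
    · intro h8
      obtain ⟨a, ha, hax⟩ := Option.map_eq_some_iff.1 (h7.1 h8)
      rw [ha]
      congr 1
      exact Subtype.ext hax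
    · intro h8
      apply h7.2
      rw [h8]
      rfl

theorem mk1_anti {G : SimpleGraph V} {S : Set V} {L M : List S}
    (h : Anti G (L.map Subtype.val) (M.map Subtype.val)) : Anti (G.induce S) L M := by
  intro a ha b hb
  obtain ⟨h1, h2⟩ := h a.1 (List.mem_map_of_mem ha) b.1 (List.mem_map_of_mem hb)
  refine ⟨fun h3 => h1 (by rw [h3]), fun h3 => h2 h3⟩

theorem mk1_girth {G : SimpleGraph V} (S : Set V) (h : Girth5 G) : Girth5 (G.induce S) := by
  refine ⟨fun a b c h1 h2 h3 => h.1 a.1 b.1 c.1 h1 h2 h3, ?_⟩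
  intro a b c d h1 h2 h3 h4 h5 h6
  exact h.2 a.1 b.1 c.1 d.1 (fun h7 => h1 (Subtype.ext h7)) (fun h7 => h2 (Subtype.ext h7)) h3 h4 h5 h6

theorem mk1_lift {S : Set V} (L : List V) (h : ∀ x ∈ L, x ∈ S) :
    ∃ L' : List S, L'.map Subtype.val = L := by
  refine ⟨L.attachWith (fun x => x ∈ S) h, ?_⟩
  simp

theorem mk1_asymm {G : SimpleGraph V} {A B : List V} (h : Anti G A B) : Anti G B A := by
  intro a ha b hb
  obtain ⟨h1, h2⟩ := h b hb a ha
  exact ⟨fun h3 => h1 h3.symm, fun h3 => h2 h3.symm⟩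

/-- the link through `x i` -/
theorem mk1_X (hCAT : ST_CAT) (hCNS : ST_CNS) (hSNC : ST_SNC) {G : SimpleGraph V} {x : Fin 4 → V}
    {A : Fin 4 → Fin 4 → List V} (h : KSys G x A) {k i l : Fin 4} (hki : k ≠ i) (hil : i ≠ l)
    (hkl : k ≠ l) : Link G (x k) (A k i ++ x i :: A i l) (x l) := by
  have a1 : Anti G [x k] (A i l) := h.antix i l k hil hki hkl
  have a2 : Anti G [x l] (A k i) := h.antix k i l hki hkl.symm hil.symm
  have n1 : x k ≠ x i := fun h1 => hki (h.inj h1)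
  have n2 : x l ≠ x i := fun h1 => hil.symm (h.inj h1)
  by_cases e1 : A k i = []
  · by_cases e2 : A i l = []
    · rw [e1, e2, List.nil_append]
      have b1 := h.edge k i hki e1
      have b2 := h.edge i l hil e2
      refine ⟨by simp, ⟨by simp, ?_⟩, by simpa using n1, by simpa using n2, ?_, ?_⟩
      · intro i' j' hi hj hij
        simp only [List.length_singleton] at hi hj
        omega
      · intro y hy
        rw [List.mem_singleton] at hy
        rw [hy]
        simp [b1]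
      · intro y hy
        rw [List.mem_singleton] at hy
        rw [hy]
        simp [b2.symm]
    · rw [e1, List.nil_append]
      exact hCNS V G (x k) (x i) (x l) (A i l) (h.edge k i hki e1) (h.link i l hil e2) a1 n2
        (fun h1 => h.nedge i l hil e2 h1.symm)
  · by_cases e2 : A i l = []
    · rw [e2]
      exact hSNC V G (x k) (x i) (x l) (A k i) (h.link k i hki e1) (h.edge i l hil e2) a2 n1
        (h.nedge k i hki e1)
    · exact hCAT V G (x k) (x i) (x l) (A k i) (A i l) (h.link k i hki e1) (h.link i l hil e2)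
        (h.anti k i i l hki hil (fun h1 => hki h1.1) (fun h1 => hkl h1.1)) a1 a2 n1
        (h.nedge k i hki e1) n2 (fun h1 => h.nedge i l hil e2 h1.symm)


theorem mk1_c1 [Finite V] (hTH1 : ST_TH1) {G : SimpleGraph V} (S : Set V) (hG : Girth5 G) {u w : V}
    {P Q : List V} (hu : u ∈ S) (hw : w ∈ S) (hP : ∀ a ∈ P, a ∈ S) (hQ : ∀ a ∈ Q, a ∈ S)
    (uw : G.Adj u w) (lP : Link G u P w) (lQ : Link G u Q w) (aPQ : Anti G P Q)
    (cov : ∀ v ∈ S, v = u ∨ v = w ∨ v ∈ P ∨ v ∈ Q) : Circ (G.induce S) := by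
  obtain ⟨P', hP'⟩ := mk1_lift P hP
  obtain ⟨Q', hQ'⟩ := mk1_lift Q hQ
  subst hP'
  subst hQ'
  refine hTH1 S (G.induce S) ⟨u, hu⟩ ⟨w, hw⟩ P' Q' (mk1_girth S hG) uw (mk1_link lP) (mk1_link lQ)
    (mk1_anti aPQ) ?_
  rintro ⟨v, hv⟩
  rcases cov v hv with h | h | h | h
  · left
    exact Subtype.ext h
  · right; left
    exact Subtype.ext h
  · right; right; left
    obtain ⟨a, ha, hav⟩ := List.mem_map.1 h
    have : a = ⟨v, hv⟩ := Subtype.ext hav
    rwa [this] at ha
  · right; right; right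
    obtain ⟨a, ha, hav⟩ := List.mem_map.1 h
    have : a = ⟨v, hv⟩ := Subtype.ext hav
    rwa [this] at ha

theorem mk1_c2 [Finite V] (hTH2 : ST_TH2) {G : SimpleGraph V} (S : Set V) (hG : Girth5 G)
    {u w y : V} {P Q : List V} (hu : u ∈ S) (hw : w ∈ S) (hy : y ∈ S) (hP : ∀ a ∈ P, a ∈ S)
    (hQ : ∀ a ∈ Q, a ∈ S) (yu : G.Adj y u) (yw : G.Adj y w) (uw : u ≠ w) (lP : Link G u P w)
    (lQ : Link G u Q w) (aPQ : Anti G P Q) (ayP : Anti G [y] P) (ayQ : Anti G [y] Q)
    (cov : ∀ v ∈ S, v = u ∨ v = w ∨ v = y ∨ v ∈ P ∨ v ∈ Q) : Circ (G.induce S) := by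
  obtain ⟨P', hP'⟩ := mk1_lift P hP
  obtain ⟨Q', hQ'⟩ := mk1_lift Q hQ
  subst hP'
  subst hQ'
  refine hTH2 S (G.induce S) ⟨u, hu⟩ ⟨w, hw⟩ ⟨y, hy⟩ P' Q' (mk1_girth S hG) yu yw ?_ (mk1_link lP)
    (mk1_link lQ) (mk1_anti aPQ) (mk1_anti ayP) (mk1_anti ayQ) ?_
  · intro h
    exact uw (congrArg Subtype.val h)
  rintro ⟨v, hv⟩
  rcases cov v hv with h | h | h | h | h
  · left
    exact Subtype.ext h
  · right; left
    exact Subtype.ext h
  · right; right; left
    exact Subtype.ext h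
  · right; right; right; left
    obtain ⟨a, ha, hav⟩ := List.mem_map.1 h
    have : a = ⟨v, hv⟩ := Subtype.ext hav
    rwa [this] at ha
  · right; right; right; right
    obtain ⟨a, ha, hav⟩ := List.mem_map.1 h
    have : a = ⟨v, hv⟩ := Subtype.ext hav
    rwa [this] at ha

theorem mk1_xS {G : SimpleGraph V} {x : Fin 4 → V} {A : Fin 4 → Fin 4 → List V} (h : KSys G x A)
    {i j : Fin 4} (hij : i ≠ j) (t : Fin 4) : x t ∉ A i j := by
  intro hm
  by_cases h1 : t = i
  · have h2 : A i j ≠ [] := List.ne_nil_of_mem hm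
    rw [h1] at hm
    exact (h.link i j hij h2).2.2.1 hm
  · by_cases h3 : t = j
    · have h2 : A i j ≠ [] := List.ne_nil_of_mem hm
      rw [h3] at hm
      exact (h.link i j hij h2).2.2.2.1 hm
    · exact (h.antix i j t hij h1 h3 (x t) (List.mem_singleton.2 rfl) (x t) hm).1 rfl

theorem mk1_AS {G : SimpleGraph V} {x : Fin 4 → V} {A : Fin 4 → Fin 4 → List V} (h : KSys G x A)
    {i j a b : Fin 4} (hij : i ≠ j) (hab : a ≠ b) (h1 : ¬ (a = i ∧ b = j)) (h2 : ¬ (a = j ∧ b = i))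
    {v : V} (hv : v ∈ A a b) : v ∉ A i j := by
  intro hm
  exact (h.anti a b i j hab hij h1 h2 v hv v hm).1 rfl

theorem mk1_rev {G : SimpleGraph V} {x : Fin 4 → V} {A : Fin 4 → Fin 4 → List V} (h : KSys G x A)
    {a b : Fin 4} {v : V} (hv : v ∈ A a b) : v ∈ A b a := by
  rw [h.rev a b]
  exact List.mem_reverse.2 hv

theorem mk1_cov {G : SimpleGraph V} {x : Fin 4 → V} {A : Fin 4 → Fin 4 → List V} (h : KSys G x A)
    (hc : ∀ v, (∃ i, v = x i) ∨ ∃ i j, i ≠ j ∧ v ∈ A i j) {i j k l : Fin 4}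
    (hf : ∀ t : Fin 4, t = i ∨ t = j ∨ t = k ∨ t = l) {v : V} (hv : v ∉ A i j) :
    (v = x k ∨ v = x l) ∨ v ∈ A k l ∨ v ∈ A k i ++ x i :: A i l ∨ v ∈ A k j ++ x j :: A j l := by
  simp only [List.mem_append, List.mem_cons]
  rcases hc v with ⟨t, ht⟩ | ⟨a, b, hab, hm⟩
  · rcases hf t with h1 | h1 | h1 | h1
    · rw [h1] at ht; tauto
    · rw [h1] at ht; tauto
    · rw [h1] at ht; tauto
    · rw [h1] at ht; tauto
  · have hm' := mk1_rev h hm
    rcases hf a with h1 | h1 | h1 | h1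
    · rcases hf b with h2 | h2 | h2 | h2
      · exact absurd (h1.trans h2.symm) hab
      · rw [h1, h2] at hm; exact absurd hm hv
      · rw [h1, h2] at hm hm'; tauto
      · rw [h1, h2] at hm hm'; tauto
    · rcases hf b with h2 | h2 | h2 | h2
      · rw [h1, h2] at hm'; exact absurd hm' hv
      · exact absurd (h1.trans h2.symm) hab
      · rw [h1, h2] at hm hm'; tauto
      · rw [h1, h2] at hm hm'; tauto
    · rcases hf b with h2 | h2 | h2 | h2
      · rw [h1, h2] at hm hm'; tauto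
      · rw [h1, h2] at hm hm'; tauto
      · exact absurd (h1.trans h2.symm) hab
      · rw [h1, h2] at hm hm'; tauto
    · rcases hf b with h2 | h2 | h2 | h2
      · rw [h1, h2] at hm hm'; tauto
      · rw [h1, h2] at hm hm'; tauto
      · rw [h1, h2] at hm hm'; tauto
      · exact absurd (h1.trans h2.symm) hab

theorem mk1_app {G : SimpleGraph V} {L A B : List V} {z : V} (h1 : Anti G L A) (h2 : Anti G L [z])
    (h3 : Anti G L B) : Anti G L (A ++ z :: B) := by
  intro a ha b hb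
  rcases List.mem_append.1 hb with hb | hb
  · exact h1 a ha b hb
  · rcases List.mem_cons.1 hb with hb | hb
    · exact h2 a ha b (by rw [hb]; exact List.mem_singleton.2 rfl)
    · exact h3 a ha b hb

/-- the link through `x j` is anticomplete to the link `A k l` -/
theorem mk1_klY {G : SimpleGraph V} {x : Fin 4 → V} {A : Fin 4 → Fin 4 → List V} (h : KSys G x A)
    {j k l : Fin 4} (hjk : j ≠ k) (hjl : j ≠ l) (hkl : k ≠ l) :
    Anti G (A k l) (A k j ++ x j :: A j l) := by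
  refine mk1_app ?_ ?_ ?_
  · exact h.anti k l k j hkl hjk.symm (fun h1 => hjl h1.2.symm) (fun h1 => hjk h1.1.symm)
  · exact mk1_asymm (h.antix k l j hkl hjk hjl)
  · exact h.anti k l j l hkl hjl (fun h1 => hjk h1.1.symm) (fun h1 => hkl h1.1)

/-- `x i` is anticomplete to the link through `x j` -/
theorem mk1_xY {G : SimpleGraph V} {x : Fin 4 → V} {A : Fin 4 → Fin 4 → List V} (h : KSys G x A)
    {i j k l : Fin 4} (hij : i ≠ j) (hik : i ≠ k) (hil : i ≠ l) (hjk : j ≠ k) (hjl : j ≠ l)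
    (hne : A i j ≠ []) : Anti G [x i] (A k j ++ x j :: A j l) := by
  refine mk1_app ?_ ?_ ?_
  · exact h.antix k j i hjk.symm hik hij
  · intro a ha b hb
    rw [List.mem_singleton] at ha hb
    rw [ha, hb]
    exact ⟨fun h1 => hij (h.inj h1), h.nedge i j hij hne⟩
  · exact h.antix j l i hjl hij hil

theorem mk1_XY {G : SimpleGraph V} {x : Fin 4 → V} {A : Fin 4 → Fin 4 → List V} (h : KSys G x A)
    {i j k l : Fin 4} (hij : i ≠ j) (hik : i ≠ k) (hil : i ≠ l) (hjk : j ≠ k) (hjl : j ≠ l)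
    (hkl : k ≠ l) (hne : A i j ≠ []) :
    Anti G (A k i ++ x i :: A i l) (A k j ++ x j :: A j l) := by
  apply mk1_asymm
  refine mk1_app ?_ ?_ ?_
  · apply mk1_asymm
    refine mk1_app ?_ ?_ ?_
    · exact h.anti k i k j hik.symm hjk.symm (fun h1 => hij h1.2) (fun h1 => hjk h1.1.symm)
    · exact mk1_asymm (h.antix k i j hik.symm hjk hij.symm)
    · exact h.anti k i j l hik.symm hjl (fun h1 => hjk h1.1.symm) (fun h1 => hkl h1.1)
  · exact mk1_asymm (mk1_xY h hij hik hil hjk hjl hne)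
  · apply mk1_asymm
    refine mk1_app ?_ ?_ ?_
    · exact h.anti i l k j hil hjk.symm (fun h1 => hik h1.1) (fun h1 => hij h1.1)
    · exact mk1_asymm (h.antix i l j hil hij.symm hjl)
    · exact h.anti i l j l hil hjl (fun h1 => hij h1.1) (fun h1 => hil h1.1)

theorem mk1_YS {G : SimpleGraph V} {x : Fin 4 → V} {A : Fin 4 → Fin 4 → List V} (h : KSys G x A)
    {i j k l : Fin 4} (hij : i ≠ j) (hik : i ≠ k) (hil : i ≠ l) (hjk : j ≠ k) (hjl : j ≠ l) :
    ∀ v ∈ A k j ++ x j :: A j l, v ∉ A i j := by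
  intro v hv
  rcases List.mem_append.1 hv with hv | hv
  · exact mk1_AS h hij hjk.symm (fun h1 => hik h1.1.symm) (fun h1 => hjk h1.1.symm) hv
  · rcases List.mem_cons.1 hv with hv | hv
    · rw [hv]
      exact mk1_xS h hij j
    · exact mk1_AS h hij hjl (fun h1 => hij h1.1.symm) (fun h1 => hil h1.2.symm) hv

theorem mk1_XS {G : SimpleGraph V} {x : Fin 4 → V} {A : Fin 4 → Fin 4 → List V} (h : KSys G x A)
    {i j k l : Fin 4} (hij : i ≠ j) (hik : i ≠ k) (hil : i ≠ l) (hjk : j ≠ k) (hjl : j ≠ l) :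
    ∀ v ∈ A k i ++ x i :: A i l, v ∉ A i j := by
  intro v hv hm
  exact mk1_YS h hij.symm hjk hjl hik hil v hv (mk1_rev h hm)

theorem mk1_c3 [Finite V] (hTH2 : ST_TH2) (hCAT : ST_CAT) (hCNS : ST_CNS) (hSNC : ST_SNC)
    {G : SimpleGraph V} {x : Fin 4 → V}
    {A : Fin 4 → Fin 4 → List V} (hG : Girth5 G) (h : KSys G x A)
    (hc : ∀ v, (∃ i, v = x i) ∨ ∃ i j, i ≠ j ∧ v ∈ A i j) {i j k l : Fin 4}
    (hf : ∀ t : Fin 4, t = i ∨ t = j ∨ t = k ∨ t = l)
    (hij : i ≠ j) (hik : i ≠ k) (hil : i ≠ l) (hjk : j ≠ k) (hjl : j ≠ l)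
    (hkl : k ≠ l) (hne : A i j ≠ []) (e1 : A k i = []) (e2 : A i l = []) :
    Circ (G.induce {v | v ∉ A i j}) := by
  have b1 := h.edge k i hik.symm e1
  have b2 := h.edge i l hil e2
  have hkl' : A k l ≠ [] := by
    intro h0
    exact hG.1 (x k) (x i) (x l) b1 b2 (h.edge k l hkl h0)
  refine mk1_c2 hTH2 _ hG (mk1_xS h hij k) (mk1_xS h hij l) (mk1_xS h hij i)
    (P := A k l) (Q := A k j ++ x j :: A j l) ?_ (mk1_YS h hij hik hil hjk hjl) b1.symm b2
    (fun h1 => hkl (h.inj h1)) (h.link k l hkl hkl') (mk1_X hCAT hCNS hSNC h hjk.symm hjl hkl)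
    (mk1_klY h hjk hjl hkl) (h.antix k l i hkl hik hil) (mk1_xY h hij hik hil hjk hjl hne) ?_
  · intro a ha
    exact mk1_AS h hij hkl (fun h1 => hik h1.1.symm) (fun h1 => hjk h1.1.symm) ha
  · intro v hv
    have h1 := mk1_cov h hc hf hv
    rw [e1, e2, List.nil_append, List.mem_singleton] at h1
    tauto

theorem st_MK1 (hTH1 : ST_TH1) (hTH2 : ST_TH2) (hCAT : ST_CAT) (hCNS : ST_CNS)
    (hSNC : ST_SNC) : ST_MK1 := by
  intro V _ G x A hG h hS hc i j hij hne
  obtain ⟨k, l, hik, hil, hjk, hjl, hkl, hf⟩ := mk1_four i j hij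
  have hXl := mk1_X hCAT hCNS hSNC h hik.symm hil hkl
  have hYl := mk1_X hCAT hCNS hSNC h hjk.symm hjl hkl
  rcases hS i j k l hij hik hil hjk hjl hkl hne with h1 | h1 | h1
  · by_cases h2 : A k l = []
    · refine mk1_c1 hTH1 _ hG (mk1_xS h hij k) (mk1_xS h hij l) (mk1_XS h hij hik hil hjk hjl)
        (mk1_YS h hij hik hil hjk hjl) (h.edge k l hkl h2) hXl hYl
        (mk1_XY h hij hik hil hjk hjl hkl hne) ?_
      intro v hv
      have h3 := mk1_cov h hc hf hv
      rw [h2] at h3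
      have h4 : v ∉ ([] : List V) := List.not_mem_nil
      tauto
    · have h3 : (A k l).length = 1 := by
        have := List.length_pos_of_ne_nil h2
        omega
      obtain ⟨y, hy⟩ := List.length_eq_one_iff.1 h3
      have hL := h.link k l hkl h2
      have yk : G.Adj (x k) y := (hL.2.2.2.2.1 y (by rw [hy]; simp)).2 (by rw [hy]; rfl)
      have yl : G.Adj (x l) y := (hL.2.2.2.2.2 y (by rw [hy]; simp)).2 (by rw [hy]; rfl)
      have hyS : y ∉ A i j := mk1_AS h hij hkl (fun h1 => hik h1.1.symm) (fun h1 => hjk h1.1.symm)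
        (by rw [hy]; simp)
      have aX := mk1_klY h hik hil hkl
      have aY := mk1_klY h hjk hjl hkl
      rw [hy] at aX aY
      refine mk1_c2 hTH2 _ hG (mk1_xS h hij k) (mk1_xS h hij l) hyS (mk1_XS h hij hik hil hjk hjl)
        (mk1_YS h hij hik hil hjk hjl) yk.symm yl.symm (fun h1 => hkl (h.inj h1)) hXl hYl
        (mk1_XY h hij hik hil hjk hjl hkl hne) aX aY ?_
      intro v hv
      have h4 := mk1_cov h hc hf hv
      rw [hy, List.mem_singleton] at h4
      tauto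
  · exact mk1_c3 hTH2 hCAT hCNS hSNC hG h hc hf hij hik hil hjk hjl hkl hne h1.1 h1.2
  · have hf' : ∀ t : Fin 4, t = j ∨ t = i ∨ t = k ∨ t = l := by
      intro t
      have := hf t
      tauto
    have hne' : A j i ≠ [] := by
      rw [h.rev i j]
      intro h2
      exact hne (List.reverse_eq_nil_iff.1 h2)
    have h2 := mk1_c3 hTH2 hCAT hCNS hSNC hG h hc hf' hij.symm hjk hjl hik hil hkl hne' h1.1 h1.2
    have h3 : {v | v ∉ A j i} = {v | v ∉ A i j} := by
      ext v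
      simp only [Set.mem_setOf_eq]
      rw [h.rev i j, List.mem_reverse]
    rwa [h3] at h2

end Pool.Agent.Helper64.HG

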