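import Pool.Agent.Helper64.HG.Stmts

set_option autoImplicit false

namespace Pool.Agent.Helper64.HG

theorem prep_adj {V : Type} {G : SimpleGraph V} {K : List V} (h : IP G K) {i j : ℕ}
    (hi : i < K.length) (hj : j < K.length) : G.Adj K[i] K[j] ↔ (j = i + 1 ∨ i = j + 1) := by
  rcases lt_trichotomy i j with h1 | h1 | h1
  · rw [h.2 i j hi hj h1]
    omega
  · subst h1
    constructor
    · intro h2
      exact absurd h2 (G.loopless.irrefl _)
    · intro h2
      omega
  · rw [G.adj_comm, h.2 j i hj hi h1]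
    omega

open Classical in
theorem prep_rep {V : Type} {G : SimpleGraph V} {K : List V} (h : IP G K) (N : Set V) (nq : V → ℕ)
    (h1 : ∀ n ∈ N, ∀ n' ∈ N, nq n = nq n' → n = n')
    (h2 : ∀ n ∈ N, ∀ i (hi : i < K.length), nq n ≠ 2 * i + 2 ∧ nq n ≠ 2 * i + 5 ∧
      (G.Adj n K[i] ↔ (2 * i + 2 < nq n ∧ nq n < 2 * i + 5))) :
    ∃ L R : V → ℝ, Rep G {x | x ∈ K} N (fun x => (nq x : ℝ)) L R := by
  have key : ∀ k ∈ {x | x ∈ K}, ∃ (i : ℕ) (hi : i < K.length), K[i] = k ∧ K.idxOf k = i := by
    intro k hk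
    have hk' : K.idxOf k < K.length := List.idxOf_lt_length_iff.2 hk
    exact ⟨K.idxOf k, hk', List.getElem_idxOf hk', rfl⟩
  refine ⟨fun x => ((2 * K.idxOf x + 2 : ℕ) : ℝ), fun x => ((2 * K.idxOf x + 5 : ℕ) : ℝ),
    ⟨?_, ?_, ?_, ?_, ?_, ?_, ?_, ?_, ?_⟩⟩
  · intro k _
    simp only [Nat.cast_lt]
    omega
  · intro n hn n' hn' hq
    exact h1 n hn n' hn' (by exact_mod_cast hq)
  · intro k hk k' hk' hL
    obtain ⟨i, hi, hik, hii⟩ := key k hk
    obtain ⟨j, hj, hjk, hjj⟩ := key k' hk'
    simp only [Nat.cast_inj, hii, hjj] at hL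
    have hij : i = j := by omega
    subst hij
    rw [← hik, ← hjk]
  · intro k hk k' hk' hL
    obtain ⟨i, hi, hik, hii⟩ := key k hk
    obtain ⟨j, hj, hjk, hjj⟩ := key k' hk'
    simp only [Nat.cast_inj, hii, hjj] at hL
    have hij : i = j := by omega
    subst hij
    rw [← hik, ← hjk]
  · intro k _ k' _
    simp only [ne_eq, Nat.cast_inj]
    omega
  · intro n hn k hk
    obtain ⟨i, hi, hik, hii⟩ := key k hk
    simp only [ne_eq, Nat.cast_inj, hii]
    exact (h2 n hn i hi).1
  · intro n hn k hk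
    obtain ⟨i, hi, hik, hii⟩ := key k hk
    simp only [ne_eq, Nat.cast_inj, hii]
    exact (h2 n hn i hi).2.1
  · intro k hk k' hk'
    obtain ⟨i, hi, hik, hii⟩ := key k hk
    obtain ⟨j, hj, hjk, hjj⟩ := key k' hk'
    simp only [Ovl, Nat.cast_lt, hii, hjj]
    rw [← hik, ← hjk, prep_adj h hi hj]
    omega
  · intro n hn k hk
    obtain ⟨i, hi, hik, hii⟩ := key k hk
    simp only [Nat.cast_lt, hii]
    rw [← hik]
    exact (h2 n hn i hi).2.2

theorem prep_head {V : Type} {K : List V} (h : K.Nodup) {i : ℕ} (hi : i < K.length) :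
    K.head? = some K[i] ↔ i = 0 := by
  have h0 : 0 < K.length := by omega
  rw [List.head?_eq_getElem?, List.getElem?_eq_getElem h0, Option.some_inj]
  constructor
  · intro h1
    exact ((List.Nodup.getElem_inj_iff h).1 h1).symm
  · intro h1
    subst h1
    rfl

theorem prep_last {V : Type} {K : List V} (h : K.Nodup) {i : ℕ} (hi : i < K.length) :
    K.getLast? = some K[i] ↔ i + 1 = K.length := by
  have h0 : K.length - 1 < K.length := by omega
  rw [List.getLast?_eq_getElem?, List.getElem?_eq_getElem h0, Option.some_inj]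
  constructor
  · intro h1
    have := (List.Nodup.getElem_inj_iff h).1 h1
    omega
  · intro h1
    have h2 : K.length - 1 = i := by omega
    simp only [h2]

open Classical in
theorem st_PREP : ST_PREP := by
  intro V G a b K h _ hab
  obtain ⟨h1, h2, h3, h4, h5, h6⟩ := h
  have hm : 0 < K.length := List.length_pos_of_ne_nil h1
  obtain ⟨L, R, hR⟩ := prep_rep h2 {a, b} (fun x => if x = a then 3 else 2 * K.length + 2) (by
    intro n hn n' hn' hq
    rcases hn with rfl | hn
    · rcases hn' with rfl | hn'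
      · rfl
      · rw [Set.mem_singleton_iff] at hn'
        subst hn'
        simp only [if_pos, if_neg hab.symm] at hq
        omega
    · rw [Set.mem_singleton_iff] at hn
      subst hn
      rcases hn' with rfl | hn'
      · simp only [if_pos, if_neg hab.symm] at hq
        omega
      · exact hn'.symm) (by
    intro n hn i hi
    have hmem : K[i] ∈ K := List.getElem_mem hi
    rcases hn with rfl | hn
    · simp only [if_pos]
      rw [h5 _ hmem, prep_head h2.1 hi]
      omega
    · rw [Set.mem_singleton_iff] at hn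
      subst hn
      simp only [if_neg hab.symm]
      rw [h6 _ hmem, prep_last h2.1 hi]
      omega)
  refine ⟨_, L, R, hR, ?_⟩
  simp only [if_pos, if_neg hab.symm]
  exact_mod_cast (by omega : 3 < 2 * K.length + 2)


end Pool.Agent.Helper64.HG
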