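import Pool.Agent.Helper45.HG.PREP

set_option autoImplicit false

namespace Pool.Agent.Helper64.HG

open Classical in
theorem st_PREP1 : ST_PREP1 := by
  intro V G a K h ha hh
  obtain ⟨L, R, hR⟩ := prep_rep h {a} (fun _ => if ∃ x ∈ K, G.Adj a x then 3 else 0) (by
    intro n hn n' hn' _
    rw [Set.mem_singleton_iff] at hn hn'
    rw [hn, hn']) (by
    intro n hn i hi
    rw [Set.mem_singleton_iff] at hn
    subst hn
    have hmem : K[i] ∈ K := List.getElem_mem hi
    by_cases he : ∃ x ∈ K, G.Adj n x
    · simp only [if_pos he]
      have h1 : G.Adj n K[i] ↔ i = 0 := by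
        constructor
        · intro h2
          exact (prep_head h.1 hi).1 (hh _ hmem h2)
        · intro h2
          obtain ⟨x, hx, hx2⟩ := he
          have h3 := hh x hx hx2
          have h4 := (prep_head h.1 hi).2 h2
          rw [h3, Option.some_inj] at h4
          rwa [← h4]
      rw [h1]
      omega
    · simp only [if_neg he]
      have h1 : ¬ G.Adj n K[i] := fun h2 => he ⟨_, hmem, h2⟩
      refine ⟨by omega, by omega, ?_⟩
      constructor
      · intro h2
        exact absurd h2 h1
      · intro h2
        omega)
  exact ⟨_, L, R, hR⟩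


end Pool.Agent.Helper64.HG
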