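import Pool.Agent.Helper64.HG.Stmts

set_option autoImplicit false

namespace Pool.Agent.Helper64.HG

theorem rot_bdd (V : Type) [Finite V] (f : V → ℝ) : ∃ B : ℝ, ∀ v, |f v| < B := by
  obtain ⟨B, hB⟩ := (Set.finite_range (fun v => |f v|)).bddAbove
  refine ⟨B + 1, fun v => ?_⟩
  have := hB (Set.mem_range_self v)
  linarith

/-- three positions of an interval with respect to the cut point -/
def RotC (t M a b a' b' : ℝ) : Prop :=
  (t ≤ a ∧ a' = a ∧ b' = b) ∨ (b < t ∧ a' = a + M ∧ b' = b + M) ∨ (a < t ∧ t < b ∧ a' = b ∧ b' = a + M)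

theorem rot_ex (t M a b : ℝ) (h : t ≠ b) : ∃ p : ℝ × ℝ, RotC t M a b p.1 p.2 := by
  by_cases h1 : t ≤ a
  · exact ⟨(a, b), Or.inl ⟨h1, rfl, rfl⟩⟩
  · rcases lt_or_gt_of_ne h with h2 | h2
    · exact ⟨(b, a + M), Or.inr (Or.inr ⟨not_le.1 h1, h2, rfl, rfl⟩)⟩
    · exact ⟨(a + M, b + M), Or.inr (Or.inl ⟨h2, rfl, rfl⟩)⟩

theorem rot_ovl {t M B a b c d a' b' c' d' : ℝ} (hM : 2 * B < M) (a1 : -B < a) (a2 : a < B)
    (b1 : -B < b) (b2 : b < B) (c1 : -B < c) (c2 : c < B) (d1 : -B < d) (d2 : d < B)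
    (hab : a < b) (hcd : c < d) (h1 : RotC t M a b a' b') (h2 : RotC t M c d c' d') :
    ((a < c ∧ c < b ∧ b < d) ∨ (c < a ∧ a < d ∧ d < b)) ↔
      ((a' < c' ∧ c' < b' ∧ b' < d') ∨ (c' < a' ∧ a' < d' ∧ d' < b')) := by
  rcases h1 with ⟨h1, rfl, rfl⟩ | ⟨h1, rfl, rfl⟩ | ⟨h1, h1', rfl, rfl⟩ <;>
  rcases h2 with ⟨h2, rfl, rfl⟩ | ⟨h2, rfl, rfl⟩ | ⟨h2, h2', rfl, rfl⟩ <;>
  constructor <;> rintro (⟨h3, h4, h5⟩ | ⟨h3, h4, h5⟩) <;>
  first
    | (exfalso; linarith)
    | (left; refine ⟨?_, ?_, ?_⟩ <;> linarith)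
    | (right; refine ⟨?_, ?_, ?_⟩ <;> linarith)

theorem st_ROT : ST_ROT := by
  intro V _ G v ⟨l, r, h⟩
  obtain ⟨B1, hB1⟩ := rot_bdd V l
  obtain ⟨B2, hB2⟩ := rot_bdd V r
  obtain ⟨B, hB⟩ : ∃ B, B = max B1 B2 := ⟨_, rfl⟩
  have hl : ∀ u, -B < l u ∧ l u < B := fun u => by
    have := hB1 u
    have h1 : B1 ≤ B := by rw [hB]; exact le_max_left _ _
    exact ⟨by linarith [(abs_lt.1 this).1], by linarith [(abs_lt.1 this).2]⟩
  have hr : ∀ u, -B < r u ∧ r u < B := fun u => by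
    have := hB2 u
    have h1 : B2 ≤ B := by rw [hB]; exact le_max_right _ _
    exact ⟨by linarith [(abs_lt.1 this).1], by linarith [(abs_lt.1 this).2]⟩
  obtain ⟨M, hM⟩ : ∃ M, M = 2 * B + 1 := ⟨_, rfl⟩
  have hM' : 2 * B < M := by linarith
  choose p hp using fun u => rot_ex (l v) M (l u) (r u) (h.ne v u)
  refine ⟨fun u => (p u).1, fun u => (p u).2, ⟨?_, ?_, ?_, ?_, ?_⟩, ?_⟩
  · intro u
    have h1 := hl u
    have h2 := hr u
    have h3 := h.lt u
    rcases hp u with ⟨h4, h5, h6⟩ | ⟨h4, h5, h6⟩ | ⟨h4, h4', h5, h6⟩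
    · simp only [h5, h6]; linarith
    · simp only [h5, h6]; linarith
    · simp only [h5, h6]; linarith
  · intro u w huw
    simp only at huw
    have h1 := hl u
    have h2 := hr u
    have h1' := hl w
    have h2' := hr w
    have h3 := h.lt u
    have h3' := h.lt w
    rcases hp u with ⟨h4, h5, h6⟩ | ⟨h4, h5, h6⟩ | ⟨h4, h4', h5, h6⟩ <;>
    rcases hp w with ⟨g4, g5, g6⟩ | ⟨g4, g5, g6⟩ | ⟨g4, g4', g5, g6⟩ <;>
    rw [h5, g5] at huw
    · exact h.injl huw
    · exfalso; linarith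
    · exact absurd huw (h.ne u w)
    · exfalso; linarith
    · exact h.injl (by linarith)
    · exfalso; linarith
    · exact absurd huw.symm (h.ne w u)
    · exfalso; linarith
    · exact h.injr huw
  · intro u w huw
    simp only at huw
    have h1 := hl u
    have h2 := hr u
    have h1' := hl w
    have h2' := hr w
    have h3 := h.lt u
    have h3' := h.lt w
    rcases hp u with ⟨h4, h5, h6⟩ | ⟨h4, h5, h6⟩ | ⟨h4, h4', h5, h6⟩ <;>
    rcases hp w with ⟨g4, g5, g6⟩ | ⟨g4, g5, g6⟩ | ⟨g4, g4', g5, g6⟩ <;>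
    rw [h6, g6] at huw
    · exact h.injr huw
    · exfalso; linarith
    · exfalso; linarith
    · exfalso; linarith
    · exact h.injr (by linarith)
    · exact absurd (by linarith : l w = r u) (h.ne w u)
    · exfalso; linarith
    · exact absurd (by linarith : l u = r w) (h.ne u w)
    · exact h.injl (by linarith)
  · intro u w huw
    have h1 := hl u
    have h2 := hr u
    have h1' := hl w
    have h2' := hr w
    have h3 := h.lt u
    have h3' := h.lt w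
    rcases hp u with ⟨h4, h5, h6⟩ | ⟨h4, h5, h6⟩ | ⟨h4, h4', h5, h6⟩ <;>
    rcases hp w with ⟨g4, g5, g6⟩ | ⟨g4, g5, g6⟩ | ⟨g4, g4', g5, g6⟩ <;>
    rw [h5, g6] at huw
    · exact h.ne u w huw
    · exfalso; linarith
    · exfalso; linarith
    · exfalso; linarith
    · exact h.ne u w (by linarith)
    · have huw' : u = w := h.injl (by linarith)
      rw [huw'] at h4
      linarith
    · have huw' : u = w := h.injr huw
      rw [huw'] at h4
      linarith
    · exfalso; linarith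
    · exfalso; linarith
  · intro u w
    rw [h.adj u w]
    exact rot_ovl hM' (hl u).1 (hl u).2 (hr u).1 (hr u).2 (hl w).1 (hl w).2 (hr w).1 (hr w).2
      (h.lt u) (h.lt w) (hp u) (hp w)
  · intro u hu
    have h1 := hl u
    have h2 := hr u
    have h1' := hl v
    have h2' := hr v
    have hv : (p v).1 = l v := by
      rcases hp v with ⟨h4, h5, h6⟩ | ⟨h4, h5, h6⟩ | ⟨h4, h4', h5, h6⟩
      · exact h5
      · exact absurd (h.lt v) (not_lt.2 h4.le)
      · exact absurd h4 (lt_irrefl _)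
    simp only [hv]
    have hne : l v ≠ l u := fun h0 => hu (h.injl h0).symm
    rcases hp u with ⟨h4, h5, h6⟩ | ⟨h4, h5, h6⟩ | ⟨h4, h4', h5, h6⟩
    · rw [h5]; exact lt_of_le_of_ne h4 hne
    · rw [h5]; linarith
    · rw [h5]; exact h4'


end Pool.Agent.Helper64.HG
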